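import Pool.Agent.Run7.h534.Link.FracUp
import Pool.Agent.Run7.h534.Link.FracLow

set_option autoImplicit false

/-!
The fractional version of the question: every `(2 k + 1)`-connected graph with at least
`2 k ^ 2 + k` vertices (every `(2 k + 2)`-connected graph with at least `k ^ 2 + 2 k` vertices) is
fractionally `k`-linked, and `2 k`-connected graphs need not be, however large they are, for
`3 ≤ k`.
-/

namespace Pool.Agent.Results.MP_e4231c_co.FractionalThreshold

open Run7.h534.Link

theorem result :
    (∀ k c : ℕ, 1 ≤ c → ∀ (V : Type) [Fintype V] (G : SimpleGraph V),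
      (2 * k + c < Fintype.card V ∧
        ∀ S : Finset V, S.card < 2 * k + c → (G.induce ((S : Set V)ᶜ)).Connected) →
      k * (2 * k + c) + 2 * k * c ≤ c * Fintype.card V + 2 * k →
      ∀ s t : Fin k → V, Function.Injective (Sum.elim s t) → FracLinked G s t) ∧
    (∀ k : ℕ, 3 ≤ k → ∀ N : ℕ,
      ∃ (V : Type) (_ : Fintype V) (G : SimpleGraph V) (s t : Fin k → V),
        N ≤ Fintype.card V ∧
        (2 * k < Fintype.card V ∧
          ∀ S : Finset V, S.card < 2 * k → (G.induce ((S : Set V)ᶜ)).Connected) ∧
        Function.Injective (Sum.elim s t) ∧ ¬ FracLinked G s t) := by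
  refine ⟨?_, ?_⟩
  · intro k c hc V _ G hG hn s t hinj
    exact frac G k c hc hG.1 hG.2 hn s t hinj
  · intro k hk N
    have h2 : N + 1 ≤ k * (N + 1) := Nat.le_mul_of_pos_left _ (by omega)
    have h3 : k ≤ k * (N + 1) := Nat.le_mul_of_pos_right k (Nat.succ_pos N)
    have hcard : Fintype.card (Vt k (k * (N + 1) - 1)) = 2 * k + (k * (N + 1) - 1) := by
      simp only [Fintype.card_sum, Fintype.card_fin]
      omega
    refine ⟨Vt k (k * (N + 1) - 1), inferInstance, GG k 0 (k * (N + 1) - 1), Sum.inl,
      fun i => Sum.inr (Sum.inl i), by rw [hcard]; omega, ⟨by rw [hcard]; omega, ?_⟩, ?_, ?_⟩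
    · intro S hS
      exact conn (by omega) (by omega) S (by simpa using hS)
    · rintro (i | i) (j | j) h
      · exact congrArg Sum.inl (Sum.inl_injective h)
      · exact absurd h (by simp)
      · exact absurd h (by simp)
      · exact congrArg Sum.inr (Sum.inl_injective (Sum.inr_injective h))
    · exact not_frac N (by omega) rfl

end Pool.Agent.Results.MP_e4231c_co.FractionalThreshold
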