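import Pool.Agent.Run7.h534.Link.Far

set_option autoImplicit false

/-!
For all `k`, `c`, `q` with `c * (q + 1) + 3 ≤ k` there is a `(2 k + c)`-connected graph with
`k * (q + 3) - 1` vertices that is not `k`-linked.  For `c = 2` and `q = (k - 5) / 2` this shows
that the number `N(k)` of the question is at least `k * ((k + 1) / 2)`.
-/

namespace Pool.Agent.Results.MP_e4231c_co.QuadraticOrder

theorem result (k c q : ℕ) (hk : c * (q + 1) + 3 ≤ k) :
    ∃ (V : Type) (_ : Fintype V) (G : SimpleGraph V) (s t : Fin k → V),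
      Fintype.card V = k * (q + 3) - 1 ∧
      (2 * k + c < Fintype.card V ∧
        ∀ S : Finset V, S.card < 2 * k + c → (G.induce ((S : Set V)ᶜ)).Connected) ∧
      Function.Injective (Sum.elim s t) ∧
      ¬ ∃ p : ∀ i, G.Walk (s i) (t i),
          (∀ i, (p i).IsPath) ∧
          ∀ i j, i ≠ j → ∀ v, v ∈ (p i).support → v ∉ (p j).support := by
  have h1 : c ≤ c * (q + 1) := Nat.le_mul_of_pos_right c (Nat.succ_pos q)
  have h2 : k ≤ k * (q + 1) := Nat.le_mul_of_pos_right k (Nat.succ_pos q)
  have h3 : k * (q + 3) = k * (q + 1) + 2 * k := by ring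
  have hcard : Fintype.card (Run7.h534.Link.Vt k (k * (q + 1) - 1)) = k * (q + 3) - 1 := by
    simp only [Fintype.card_sum, Fintype.card_fin]
    omega
  refine ⟨Run7.h534.Link.Vt k (k * (q + 1) - 1), inferInstance,
    Run7.h534.Link.GG k c (k * (q + 1) - 1), Sum.inl, fun i => Sum.inr (Sum.inl i), hcard,
    ⟨by rw [hcard]; omega, ?_⟩, ?_, ?_⟩
  · intro S hS
    exact Run7.h534.Link.conn (by omega) (by omega) S hS
  · rintro (i | i) (j | j) h
    · exact congrArg Sum.inl (Sum.inl_injective h)
    · exact absurd h (by simp)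
    · exact absurd h (by simp)
    · exact congrArg Sum.inr (Sum.inl_injective (Sum.inr_injective h))
  · exact Run7.h534.Link.not_linked q hk rfl

end Pool.Agent.Results.MP_e4231c_co.QuadraticOrder
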